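import Pool.Agent.T6.H14.UG.Fin

set_option autoImplicit false
set_option linter.unusedSectionVars false
set_option linter.unusedSimpArgs false

/-!
# The elements of the Mumford-Tate group over the exponentials of elements of the Lie algebra
-/

open Module Function TensorProduct Matrix

noncomputable section

namespace Pool.Agent.T6.H14.RD

open Pool.Agent.Y102 Pool.Agent.W516.DR Pool.Agent.H204R3.GP Pool.Agent.W516.KC
  Pool.Agent.H204R3.SP Pool.Agent.TH119.MX Pool.Agent.R917.OM Pool.Agent.R917.BX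
  Pool.Agent.R917 Pool.Agent.T6.H14.UG

variable {g : ℕ} {A : AbVarG g} {n s : ℕ} {d : Dt g n s}
  {H : Set (Matrix (RI g n s) (RI g n s) ℂ)}

/-! ### Exponentials of block diagonal matrices -/

/-- the block diagonal matrix -/
def bD (g n s : ℕ) : Matrix (Fin (2 * g)) (Fin (2 * g)) ℂ →ₗ[ℂ] Matrix (RI g n s) (RI g n s) ℂ where
  toFun X := bm X 0 0 0 0 0
  map_add' X Y := by
    rw [bm_add]
    simp
  map_smul' c X := by
    rw [RingHom.id_apply, bm_smul]
    simp

theorem bD_mul (X Y : Matrix (Fin (2 * g)) (Fin (2 * g)) ℂ) :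
    bD g n s X * bD g n s Y = bD g n s (X * Y) := by
  change bm X 0 0 0 0 0 * bm Y 0 0 0 0 0 = bm (X * Y) 0 0 0 0 0
  rw [bm_mul]
  congr 1 <;> simp

theorem bD_pow (X : Matrix (Fin (2 * g)) (Fin (2 * g)) ℂ) (k : ℕ) :
    bD g n s X ^ (k + 1) = bD g n s (X ^ (k + 1)) := by
  induction k with
  | zero => rw [zero_add, pow_one, pow_one]
  | succ k ih => rw [pow_succ, ih, bD_mul, ← pow_succ]

theorem exp_bD (X : Matrix (Fin (2 * g)) (Fin (2 * g)) ℂ) :
    NormedSpace.exp (bD g n s X) = bm (NormedSpace.exp X) 0 1 0 0 1 := by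
  have h1 : HasSum (fun k : ℕ => ((k.factorial : ℂ)⁻¹) • X ^ k) (NormedSpace.exp X) := by
    open scoped Matrix.Norms.Operator in
    exact NormedSpace.exp_series_hasSum_exp' (𝕂 := ℂ) X
  have hcont : Continuous (bD g n s) := by
    refine continuous_matrix fun r r' => ?_
    rcases r with j | l | i <;> rcases r' with j' | l' | i' <;>
      simp only [bD, LinearMap.coe_mk, AddHom.coe_mk, bm, Matrix.of_apply, Sum.elim_inl,
        Sum.elim_inr, ite_self, Matrix.zero_apply]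
    · exact continuous_id.matrix_elem j j'
    all_goals exact continuous_const
  have h2 : HasSum (fun k : ℕ => bD g n s (((k.factorial : ℂ)⁻¹) • X ^ k))
      (bD g n s (NormedSpace.exp X)) := h1.map (bD g n s) hcont
  have h3 : HasSum (fun k : ℕ => if k = 0 then (bm 0 0 1 0 0 1 : Matrix (RI g n s) (RI g n s) ℂ)
      else 0) (bm 0 0 1 0 0 1) := by
    convert hasSum_ite_eq (0 : ℕ) (bm 0 0 1 0 0 1 : Matrix (RI g n s) (RI g n s) ℂ)
  have h4 := h2.add h3
  have h5 : HasSum (fun k : ℕ => ((k.factorial : ℂ)⁻¹) • bD g n s X ^ k)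
      (NormedSpace.exp (bD g n s X)) := by
    open scoped Matrix.Norms.Operator in
    exact NormedSpace.exp_series_hasSum_exp' (𝕂 := ℂ) (bD g n s X)
  have h6 : (fun k : ℕ => ((k.factorial : ℂ)⁻¹) • bD g n s X ^ k) = fun k : ℕ =>
      bD g n s (((k.factorial : ℂ)⁻¹) • X ^ k) +
        if k = 0 then (bm 0 0 1 0 0 1 : Matrix (RI g n s) (RI g n s) ℂ) else 0 := by
    funext k
    rcases k with _ | k
    · rw [if_pos rfl, pow_zero, pow_zero, Nat.factorial_zero, Nat.cast_one, inv_one, one_smul,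
        one_smul]
      change 1 = bm 1 0 0 0 0 0 + bm 0 0 1 0 0 1
      rw [bm_add, ← bm_one]
      congr 1 <;> simp
    · rw [if_neg (Nat.succ_ne_zero k), add_zero, map_smul, bD_pow]
  rw [h6] at h5
  rw [h5.unique h4]
  change bm (NormedSpace.exp X) 0 0 0 0 0 + bm 0 0 1 0 0 1 = _
  rw [bm_add]
  congr 1 <;> simp

/-! ### Elements of the image of the Lie algebra -/

/-- The elements of the Lie algebra in the frame, for the elements of the image. -/
theorem aa_mem (h : Lg (gg A.toAbVar n s H) d) (u : UD (gg A.toAbVar n s H) d)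
    (τ : Fin n → Fin s → ℚ) {W : Tup A.toAbVar n s} (hW : W ∈ gg A.toAbVar n s H) (h1 : W.1 = 0)
    (h2 : W.2.1 = 1) {X : Module.End ℚ A.H1} (hX : X ∈ aa (gg A.toAbVar n s H)) :
    sh τ ((X, 0, 0, 0) : Tup A.toAbVar n s) ∈ (gg A.toAbVar n s H).map (cj u.w) := by
  obtain ⟨L₀, hL₀, hL₁⟩ := hX
  obtain ⟨L, hL, e1, e2⟩ : ∃ L ∈ gg A.toAbVar n s H, L.1 = X ∧ L.2.1 = 0 := by
    refine ⟨L₀ - L₀.2.1 • W, (gg A.toAbVar n s H).sub_mem hL₀
      ((gg A.toAbVar n s H).smul_mem _ hW), ?_, ?_⟩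
    · change L₀.1 - L₀.2.1 • W.1 = _
      rw [h1, smul_zero, sub_zero]
      exact hL₁
    · change L₀.2.1 - L₀.2.1 * W.2.1 = 0
      rw [h2, mul_one, sub_self]
  refine mem_of_parts' (map_Lg u.w h) (u.hBmap h) (L := cj u.w L) ⟨L, hL, rfl⟩ e1.symm e2.symm ?_
    fun φ hφ ρ hρ => ?_
  · rw [uu_map]
    have h3 := (uu (gg A.toAbVar n s H)).neg_mem (u.levi L hL)
    convert h3 using 1
    funext p
    exact zero_sub _
  · change φ (fun i l => (0 : ℚ) + 2 * 0 * τ i l) = 2 * 0 * ρ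
    have h3 : (fun (i : Fin n) (l : Fin s) => (0 : ℚ) + 2 * 0 * τ i l) = 0 := by
      funext i l
      change (0 : ℚ) + 2 * 0 * τ i l = 0
      ring
    rw [h3, map_zero, mul_zero, zero_mul]

theorem bD_mem (hpt : PtM A.toAbVar d H) (u : UD (gg A.toAbVar n s H) d)
    (τ : Fin n → Fin s → ℚ) {W : Tup A.toAbVar n s} (hW : W ∈ gg A.toAbVar n s H) (h1 : W.1 = 0)
    (h2 : W.2.1 = 1) {Z : Matrix (Fin (2 * g)) (Fin (2 * g)) ℂ}
    (hZ : Z ∈ Submodule.span ℂ {Y | ∃ X ∈ aa (gg A.toAbVar n s H), Y = em X}) (k : ℕ) :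
    Stab H k (kF A.toAbVar u.w τ * bD g n s Z * kI A.toAbVar u.w τ) := by
  have hLg := gg_Lg hpt
  induction hZ using Submodule.span_induction with
  | mem Y hY =>
    obtain ⟨X, hX, rfl⟩ := hY
    obtain ⟨L', hL', h3⟩ := frame_mem hLg u.w τ (aa_mem hLg u τ hW h1 h2 hX)
    have h4 : OM.mt ((X, 0, 0, 0) : Tup A.toAbVar n s) = bD g n s (em X) := by
      rw [mt_bm]
      have h5 : op ((X, 0, 0, 0) : Tup A.toAbVar n s) = X := by
        unfold op
        rw [zero_smul, add_zero]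
      rw [h5]
      change _ = bm (em X) 0 0 0 0 0
      congr 1
      · ext i j
        simp [zR, Matrix.mul_apply]
      · simp
      · ext i j
        simp [zI]
      · ext i j
        simp [tM]
    rw [← h4, h3]
    exact hL'.2 k
  | zero =>
    rw [map_zero, Matrix.mul_zero, Matrix.zero_mul]
    exact Stab.zero
  | add a b _ _ ha hb =>
    rw [map_add, Matrix.mul_add, Matrix.add_mul]
    exact ha.add hb
  | smul c a _ ha =>
    rw [map_smul, Matrix.mul_smul, Matrix.smul_mul]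
    exact ha.smul c

theorem exp_mem_H (hpt : PtM A.toAbVar d H) (u : UD (gg A.toAbVar n s H) d)
    (τ : Fin n → Fin s → ℚ) {W : Tup A.toAbVar n s} (hW : W ∈ gg A.toAbVar n s H) (h1 : W.1 = 0)
    (h2 : W.2.1 = 1) {Z : Matrix (Fin (2 * g)) (Fin (2 * g)) ℂ}
    (hZ : Z ∈ Submodule.span ℂ {Y | ∃ X ∈ aa (gg A.toAbVar n s H), Y = em X}) :
    kF A.toAbVar u.w τ * bm (NormedSpace.exp Z) 0 1 0 0 1 * kI A.toAbVar u.w τ ∈ H := by
  rw [← exp_bD, ← kF_inv, ← Matrix.exp_conj _ _ (isUnit_kF _ _ _), kF_inv]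
  exact exp_mem hpt.grp fun k => bD_mem hpt u τ hW h1 h2 hZ k

/-- **The theorem.** -/
theorem main' (hpt : PtM A.toAbVar d H) (hd : Good A d)
    {K₁ : IntermediateField ℚ ℂ} [FiniteDimensional ℚ K₁]
    (hu : ∀ p (m : ℕ), IsRat A.toAbVar K₁ (m • pt d p)) :
    ∃ (h : Lg (gg A.toAbVar n s H) d) (u : UD (gg A.toAbVar n s H) d) (τ : Fin n → Fin s → ℚ),
      (∀ z : ℂ, z ≠ 0 → dM A.toAbVar d u.w τ z ∈ GU h u τ) ∧
      ∀ (Z : Matrix (Fin (2 * g)) (Fin (2 * g)) ℂ)
        (_ : Z ∈ Submodule.span ℂ {Y | ∃ X ∈ aa (gg A.toAbVar n s H), Y = em X})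
        (y : Matrix (Fin (2 * g)) (Fin s) ℂ) (z : Matrix (Fin n) (Fin (2 * g)) ℂ)
        (t : Matrix (Fin n) (Fin s) ℂ) (c : ℂ), c ≠ 0 →
        bm (c • NormedSpace.exp Z) y (c ^ 2) z t 1 ∈ GU h u τ →
          bm (c • NormedSpace.exp Z) y (c ^ 2) z t 1 ∈ H := by
  have h := gg_Lg hpt
  obtain ⟨u⟩ := main2 h hu
  obtain ⟨W, hW, hW1, hW2⟩ := Pool.Agent.R917.DT.weight hpt
  refine ⟨h, u, tau0 u W, fun z hz => ?_, fun Z hZ y z t c hc hM => ?_⟩
  · have hE : eT A.toAbVar d u.w (tau0 u W) ∈ (dt h u).G := by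
      refine ⟨1, 1, _, _, _, ⟨⟨1, by rw [Matrix.one_mul], by rw [Matrix.one_mul]⟩, one_ne_zero,
        fun _ => rfl, fun _ => by simp, fun p i => by rw [Matrix.one_mul, Matrix.mul_one],
        fun p i => by rw [Matrix.one_mul, Matrix.mul_one], vc_pt u, fun φ => ?_⟩, rfl⟩
      obtain ⟨ρ, hρ⟩ := phi_levi' (map_Lg u.w h) (φ := φ.1) (fun t ht => φ.2 t (by
        rwa [tt_map] at ht)) (u.hBmap h φ.1 fun t ht => φ.2 t (by rwa [tt_map] at ht))
      have h1 := u.sum_W (sym_of_phi h φ.2) (u.Lm_rel h hd φ.2 hρ)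
      have h2 := tau0_rho u hW hW2 hρ
      have h3 := phi_eq φ.1 (tau0 u W)
      rw [h2] at h3
      have h4 := congrArg (fun q : ℚ => (q : ℂ)) h3
      push_cast at h4
      change lf (Matrix.of (mC φ.1)) (pT A.toAbVar (fd u.w d) - tM (tau0 u W)) = 0
      rw [lf_sub]
      have h5 : lf (Matrix.of (mC φ.1)) (tM (tau0 u W)) = (ρ : ℂ) := by
        rw [h4]
        rfl
      have h6 : lf (Matrix.of (mC φ.1)) (pT A.toAbVar (fd u.w d)) = (ρ : ℂ) := by
        have h7 : (2 : ℂ) * lf (Matrix.of (mC φ.1)) (pT A.toAbVar (fd u.w d)) = 2 * (ρ : ℂ) := by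
          rw [← h1]
          unfold lf
          rw [Finset.mul_sum, Finset.mul_sum, ← Finset.sum_add_distrib]
          refine Finset.sum_congr rfl fun i _ => ?_
          rw [Finset.mul_sum, Finset.mul_sum, ← Finset.sum_add_distrib]
          refine Finset.sum_congr rfl fun l _ => ?_
          change 2 * (mC φ.1 i l * (kap A.toAbVar (fd u.w d) i l + 2⁻¹ *
            ((A.E ((pt d - Pe u.w) (Sum.inr l)) ((pt d - Pe u.w) (Sum.inl i)) : ℝ) : ℂ))) = _
          ring
        exact mul_left_cancel₀ two_ne_zero h7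
      rw [h5, h6, sub_self]
    obtain ⟨E', hE', h1⟩ := Dat.inv_mem _ hE
    have h2 : eI A.toAbVar d u.w (tau0 u W) = E' := by
      have h3 : eI A.toAbVar d u.w (tau0 u W) * eT A.toAbVar d u.w (tau0 u W) = 1 := un_inv' _ _ _
      calc _ = eI A.toAbVar d u.w (tau0 u W) * (eT A.toAbVar d u.w (tau0 u W) * E') := by
            rw [h1, Matrix.mul_one]
        _ = E' := by rw [← Matrix.mul_assoc, h3, Matrix.one_mul]
    have h3 : kI A.toAbVar u.w (tau0 u W) * dM A.toAbVar d u.w (tau0 u W) z *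
        kF A.toAbVar u.w (tau0 u W) = eT A.toAbVar d u.w (tau0 u W) * bZ A.toAbVar n s z *
          eI A.toAbVar d u.w (tau0 u W) := by
      have h4 := kI_kF A.toAbVar u.w (tau0 u W)
      unfold dM
      calc _ = (kI A.toAbVar u.w (tau0 u W) * kF A.toAbVar u.w (tau0 u W)) *
          (eT A.toAbVar d u.w (tau0 u W) * bZ A.toAbVar n s z *
          eI A.toAbVar d u.w (tau0 u W)) *
          (kI A.toAbVar u.w (tau0 u W) * kF A.toAbVar u.w (tau0 u W)) := by
            simp only [Matrix.mul_assoc]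
        _ = _ := by rw [h4, Matrix.one_mul, Matrix.mul_one]
    change kI A.toAbVar u.w (tau0 u W) * dM A.toAbVar d u.w (tau0 u W) z *
        kF A.toAbVar u.w (tau0 u W) ∈ (dt h u).G
    rw [h3, h2]
    exact Dat.mul_mem _ (Dat.mul_mem _ hE (bZ_mem h u hz)) hE'
  · obtain ⟨X, y', a, z', t', ha1, h1, Zi, Zr, T, hmem, h2⟩ := GU_bm h u _ hM
    have hX : X = c • NormedSpace.exp Z := by
      have h3 := congrArg Dat.mX h1
      rw [Dat.mX_bm, Dat.mX_bm] at h3
      exact h3.symm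
    have ha : ∀ _ : Fin s, a = c ^ 2 := by
      intro l
      have h3 := congrFun (congrFun h1 (Sum.inr (Sum.inl l))) (Sum.inr (Sum.inl l))
      simp [bm] at h3
      exact h3.symm
    have h4 : pm (OmM A.toAbVar) X a Zi Zr T =
        bL g n s c * (bm (NormedSpace.exp Z) 0 1 0 0 1 * un A.toAbVar Zi Zr T) := by
      have h5 : bL g n s c * bm (NormedSpace.exp Z) 0 1 0 0 1 = bm X 0 a 0 0 1 := by
        unfold bL
        rw [bm_mul, hX]
        have h6 : bm (c • NormedSpace.exp Z) (0 : Matrix (Fin (2 * g)) (Fin s) ℂ) a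
            (0 : Matrix (Fin n) (Fin (2 * g)) ℂ) 0 1 = bm (c • NormedSpace.exp Z) 0 (c ^ 2) 0 0 1 :=
          bm_a ha
        rw [h6]
        congr 1 <;> simp
      rw [← Matrix.mul_assoc, h5, un_eq, bm_mul]
      unfold pm
      simp only [Matrix.mul_one, mul_one, Matrix.zero_mul, zero_add, one_smul, smul_zero,
        add_zero]
    rw [h2, h4]
    have h5 : kF A.toAbVar u.w (tau0 u W) * (bL g n s c * (bm (NormedSpace.exp Z) 0 1 0 0 1 *
        un A.toAbVar Zi Zr T)) * kI A.toAbVar u.w (tau0 u W) =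
        (kF A.toAbVar u.w (tau0 u W) * bL g n s c * kI A.toAbVar u.w (tau0 u W)) *
        ((kF A.toAbVar u.w (tau0 u W) * bm (NormedSpace.exp Z) 0 1 0 0 1 *
          kI A.toAbVar u.w (tau0 u W)) *
        (kF A.toAbVar u.w (tau0 u W) * un A.toAbVar Zi Zr T * kI A.toAbVar u.w (tau0 u W))) := by
      have h6 := kI_kF A.toAbVar u.w (tau0 u W)
      symm
      calc _ = kF A.toAbVar u.w (tau0 u W) * bL g n s c *
          (kI A.toAbVar u.w (tau0 u W) * kF A.toAbVar u.w (tau0 u W)) *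
          bm (NormedSpace.exp Z) 0 1 0 0 1 *
          (kI A.toAbVar u.w (tau0 u W) * kF A.toAbVar u.w (tau0 u W)) * un A.toAbVar Zi Zr T *
          kI A.toAbVar u.w (tau0 u W) := by simp only [Matrix.mul_assoc]
        _ = _ := by
          rw [h6, Matrix.mul_one, Matrix.mul_one]
          simp only [Matrix.mul_assoc]
    rw [h5]
    exact hpt.grp.mul _ (bL_mem_H hpt u hW hW1 hW2 hc) _ (hpt.grp.mul _
      (exp_mem_H hpt u _ hW hW1 hW2 hZ) _
      (un_mem_H hpt u _ hmem.v fun φ hφ => hmem.t ⟨φ, hφ⟩))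

end Pool.Agent.T6.H14.RD
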