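import Pool.Agent.T6.H14.CM.Prd

set_option autoImplicit false
set_option linter.unusedSectionVars false

/-!
# The centre of the Lie algebra of the Hodge group
-/

open Module Function TensorProduct Matrix

noncomputable section

namespace Pool.Agent.T6.H14.RD

open Pool.Agent.Y102 Pool.Agent.W516.DR Pool.Agent.H204R3.GP Pool.Agent.W516.KC
  Pool.Agent.H204R3.SP Pool.Agent.TH119.MX Pool.Agent.R917.OM Pool.Agent.Y102.AbVar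
  Pool.Agent.R917.EC Pool.Agent.R917.DT Pool.Agent.R917 Pool.Agent.T6.H14.CM

variable {g₂ g g' : ℕ} {B₂ : AbVar g₂} {B : AbVar g'}
  {f₂ : B₂.H1 →ₗ[ℚ] B.H1} {p₂ : B.H1 →ₗ[ℚ] B₂.H1}

/-- **The centre of the Lie algebra of the Hodge group is contained in the algebraic subalgebras which
contain the logarithmic derivatives of the periods.** -/
theorem centre_le (h₂ : Fac B₂ B f₂ p₂) (H₂ : Det B₂)
    (Hc : ∀ X ∈ B₂.NA, ∀ Y ∈ B₂.NA, X * Y = Y * X)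
    (H₃ : ∀ Z ∈ B.NA, (∀ Y ∈ B.NA, Z * Y = Y * Z) → rs f₂ p₂ Z = 0 → Z = 0)
    {𝔥 : Submodule ℚ (Module.End ℚ B.H1)} (hle : 𝔥 ≤ B.NA)
    (hbr : ∀ X ∈ 𝔥, ∀ Y ∈ 𝔥, X * Y - Y * X ∈ 𝔥)
    (h0 : ∀ (D : Derivation QBar ℂ ℂ) (lam : ℂ →ₗ[ℚ] ℚ), X0 B.basis tau D lam ∈ 𝔥)
    (hRC : RC 𝔥) {Z : Module.End ℚ B.H1} (hZ : Z ∈ B.NA) (hZc : ∀ Y ∈ B.NA, Z * Y = Y * Z) :
    Z ∈ 𝔥 := by
  classical
  have F : B.Full 𝔥 := full_of_X0 B hle hbr h0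
  have hcomm2 : ∀ X ∈ B.NA, ∀ Y ∈ B.NA, rs f₂ p₂ (X * Y - Y * X) = 0 := by
    intro X hX Y hY
    rw [map_sub, h₂.rs_mul hY, h₂.rs_mul hX, Hc _ (h₂.rs_NA hX) _ (h₂.rs_NA hY), sub_self]
  have hder2 : ∀ e ∈ der 𝔥, rs f₂ p₂ e = 0 := by
    intro e he
    unfold der at he
    induction he using Submodule.span_induction with
    | mem X hX =>
      obtain ⟨P, hP, Q, hQ, rfl⟩ := hX
      exact hcomm2 P (hle hP) Q (hle hQ)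
    | zero => rw [map_zero]
    | add a b _ _ ha hb => rw [map_add, ha, hb, add_zero]
    | smul c a _ ha => rw [map_smul, ha, smul_zero]
  -- central lifts
  have hcen : ∀ X ∈ 𝔥, ∃ Z ∈ 𝔥, (∀ Y ∈ B.NA, Z * Y = Y * Z) ∧ rs f₂ p₂ Z = rs f₂ p₂ X := by
    intro X hX
    obtain ⟨Z, hZ, e, he, e1, e2⟩ := F.dec hX
    refine ⟨Z, hZ, fun Y hY => (F.comm Z (fun X hX => (e2 X hX).symm) Y hY).symm, ?_⟩
    rw [e1, map_add, hder2 e he, add_zero]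
  -- the second factor
  have F₂ := map_full h₂ hle hbr h0
  have R₂ : RC (𝔥.map (rs f₂ p₂)) := by
    refine map_RC h₂ hle hRC ?_
    rintro _ ⟨X, hX, rfl⟩ s hsX
    obtain ⟨Z, hZ, h3, h4⟩ := hcen X hX
    obtain ⟨t, -, ht⟩ := imag_roots (hle hZ) h3
    exact ⟨Z, hZ, h4, t, ht⟩
  have D₂ := H₂ _ F₂ R₂
  obtain ⟨X', hX', h3⟩ := D₂ (h₂.rs_NA hZ)
  obtain ⟨Z', hZ', h4, h5⟩ := hcen X' hX'
  have h6 : Z - Z' = 0 := by
    refine H₃ _ (B.NA.sub_mem hZ (hle hZ')) (fun Y hY => ?_) ?_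
    · rw [sub_mul, mul_sub, hZc Y hY, h4 Y hY]
    · rw [map_sub, h5, h3, sub_self]
  rw [sub_eq_zero.1 h6]
  exact hZ'

/-- The restriction of the centre to a factor. -/
theorem centre_aa {A : AbVar g} {f : A.H1 →ₗ[ℚ] B.H1} {p : B.H1 →ₗ[ℚ] A.H1} (h : Fac A B f p)
    (h₂ : Fac B₂ B f₂ p₂) (H₂ : Det B₂)
    (Hc : ∀ X ∈ B₂.NA, ∀ Y ∈ B₂.NA, X * Y = Y * X)
    (H₃ : ∀ Z ∈ B.NA, (∀ Y ∈ B.NA, Z * Y = Y * Z) → rs f₂ p₂ Z = 0 → Z = 0)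
    {n s : ℕ} {d : Dt g n s} {H : Set (Matrix (RI g n s) (RI g n s) ℂ)} (hpt : PtM A d H)
    {Z : Module.End ℚ B.H1} (hZ : Z ∈ B.NA) (hZc : ∀ Y ∈ B.NA, Z * Y = Y * Z) :
    rs f p Z ∈ aa (gg A n s H) := by
  have hL : Lg (gg A n s H) d := gg_Lg hpt
  have h1 : Z ∈ Fac.qq f p (aa (gg A n s H)) := by
    refine centre_le h₂ H₂ Hc H₃ (𝔥 := Fac.qq f p (aa (gg A n s H))) (fun X hX => hX.1)
      (fun X hX Y hY => ⟨B.NA_bracket hX.1 hY.1, ?_⟩) (fun D lam => ⟨B.LA_le_NA ?_, ?_⟩)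
      (h.qq_RC (aa_RC hpt)) hZ hZc
    · change rs f p (X * Y - Y * X) ∈ aa (gg A n s H)
      rw [map_sub, h.rs_mul hY.1, h.rs_mul hX.1]
      exact hL.full.br _ hX.2 _ hY.2
    · rw [AbVar.LA_eq]
      exact X0_mem B.basis AbVar.tau_ne D lam
    · change rs f p (X0 B.basis tau D lam) ∈ aa (gg A n s H)
      rw [h.rs_X0]
      exact ⟨_, hL.per D lam, rfl⟩
  exact h1.2

end Pool.Agent.T6.H14.RD
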